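import Pool.Agent.H59.L.S8.TH594.KP.Spec

/-!
# KLS for systems of indistinguishable particles of several species in `ℝ^d`

The Kannan-Lovasz-Simonovits inequality, in the equivalent (E. Milman) form of a variance bound for
Lipschitz functions, for all log-concave probability measures on configurations `(x_1, …, x_N)` of
`N` particles in `ℝ^d` which do not change when particles of the same species are permuted. The
constant depends only on `d` and the number `q` of species (polynomially) and not on `N`.

For `d = q = 1` this is `Pool.Agent.Results.MP_6d896a_gt.Exchangeable` (starting files), whose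
scheme is followed.

Method. Discrete Bochner inequality through the Gaussian channel (`H888R2.KT.key`) and a Gaussian
tilt in the `q d` directions of the centres of mass of the species (`H888R2.KT.untiltq`): it is
enough to consider functions which are odd under the exchange of two particles `k`, `l` of the same
species. For these a Hardy type inequality holds. For `|x_k - x_l|` large there is a bounded vector
field, a nonnegative combination of moves which take two particles apart (so that the density does
not increase along it), with divergence at most `-c`; unlike for `d = 1` there is no ordering of the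
particles, and the region where `x_k` and `x_l` are close has dimension `d` in the transversal
direction: it is treated by a one dimensional odd Poincare inequality along the fibres
`s ↦ (x_k, x_l) = m ± s v` on which the even log-concave density is unimodal.
-/

set_option autoImplicit false

namespace Pool.Agent.Results.MP_6d896a_gt.Particles

open MeasureTheory Set
open scoped ENNReal InnerProductSpace

/-- configurations of `N` particles in `ℝ^d`: `x (i, α)` is the coordinate `α` of the particle `i` -/
abbrev Conf (N d : ℕ) : Type := EuclideanSpace ℝ (Fin N × Fin d)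

/-- `ρ` is a log-concave density on the space of configurations of `N` particles in `ℝ^d` which does
not change when the particles are permuted within their species; `b i` is the species of the
particle `i`. -/
structure SpeciesDensity {N d q : ℕ} (b : Fin N → Fin q) (ρ : Conf N d → ℝ) : Prop where
  nonneg : ∀ x, 0 ≤ ρ x
  meas : Measurable ρ
  logc : ∀ x y, ∀ t : ℝ, 0 < t → t < 1 → ρ x ^ (1 - t) * ρ y ^ t ≤ ρ ((1 - t) • x + t • y)
  inv : ∀ σ : Equiv.Perm (Fin N), (∀ i, b (σ i) = b i) → ∀ x y : Conf N d,
    (∀ i α, y (i, α) = x (σ i, α)) → ρ y = ρ x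

/-- `Var ⟪θ, X⟫ ≤ s ‖θ‖²` for all `θ`: the covariance matrix of `μ` has norm at most `s`. -/
def CovLe {N d : ℕ} (μ : Measure (Conf N d)) (s : ℝ) : Prop :=
  ∀ θ : Conf N d, ProbabilityTheory.evariance (fun x => ⟪θ, x⟫_ℝ) μ ≤
    ENNReal.ofReal (s * ‖θ‖ ^ 2)

/-- **KLS for indistinguishable particles.** There is an absolute constant `C` such that for all
`N`, all `d ≥ 1`, all `q` and every surjective map `b` assigning to each of the `N` particles one of
the `q` species, every log-concave probability density `ρ` on configurations of `N` particles in `ℝ^d`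
invariant under permutations of the particles preserving the species and every `s > 0` such that the
covariance matrix has norm at most `s`: every `C¹` function with `‖∇ f‖ ≤ 1` has variance at most
`C q d⁴ (1 + log q)² s`, and every `C¹` function with `|f| ≤ 1` satisfies
`(Var f)² ≤ C q d⁴ (1 + log q)² s E ‖∇ f‖²`. -/
theorem result : ∃ C : ℝ, 0 < C ∧ ∀ N d q : ℕ, 1 ≤ N → 1 ≤ d →
    ∀ b : Fin N → Fin q, Function.Surjective b →
    ∀ ρ : Conf N d → ℝ, SpeciesDensity b ρ →
    ∀ μ : Measure (Conf N d),
    μ = volume.withDensity (fun x => ENNReal.ofReal (ρ x)) → IsProbabilityMeasure μ →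
    ∀ s : ℝ, 0 < s → CovLe μ s → ∀ f : Conf N d → ℝ, ContDiff ℝ 1 f →
    ((∀ x, ‖fderiv ℝ f x‖ ≤ 1) → MemLp f 2 μ ∧
      ProbabilityTheory.variance f μ ≤ C * (q * (d : ℝ) ^ 4 * (1 + Real.log q) ^ 2) * s) ∧
    ((∀ x, |f x| ≤ 1) → ENNReal.ofReal (ProbabilityTheory.variance f μ ^ 2) ≤
      ENNReal.ofReal (C * (q * (d : ℝ) ^ 4 * (1 + Real.log q) ^ 2) * s) *
        ∫⁻ x, ENNReal.ofReal (‖fderiv ℝ f x‖ ^ 2) ∂μ) := by
  obtain ⟨C, hC, H⟩ := Pool.Agent.TH594.KP.sc
  refine ⟨8 * C, by positivity, ?_⟩
  intro N d q hN hd b hb ρ hρ μ hμ hprob s hs hcov f hf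
  subst hμ
  have hq : 1 ≤ q := by
    have h1 : 0 < q := Fin.pos (b ⟨0, hN⟩)
    exact h1
  have hG : Pool.Agent.TH594.KP.GD (Pool.Agent.TH594.KP.GG (Fin d) b) ρ :=
    Pool.Agent.TH594.KP.gd_of hρ.nonneg hρ.meas hρ.logc fun k l hkl x =>
      hρ.inv (Equiv.swap k l) (Pool.Agent.TH594.KP.swap_fix hkl) x _ fun i α =>
        Pool.Agent.TH594.KP.swp_apply k l x (i, α)
  have hfac := Pool.Agent.TH594.KP.fac_pos hq hd
  have key := Pool.Agent.TH594.KP.full (mul_pos hC hfac) (H b hb hd hq) ρ hG hprob.measure_univ
    s hs hcov f hf
  have e : 8 * (C * Pool.Agent.TH594.KP.fac q d) * s =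
      8 * C * (q * (d : ℝ) ^ 4 * (1 + Real.log q) ^ 2) * s := by
    unfold Pool.Agent.TH594.KP.fac
    ring
  rw [e] at key
  exact key

end Pool.Agent.Results.MP_6d896a_gt.Particles
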